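import Mathlib

/-!
# MP_36f0a5_co: splitting partial triple systems of large index

Every partial triple system of order `u` and index `l > 6 (u - 2) ^ C(u, 3)` is the sum of two partial triple systems
whose indices are positive and have sum `l`, and the first index is a multiple of `6` and at most
`6 (u - 2) ^ C(u, 3)`. So the embedding problem for fixed `u` and `v` is a problem about these indices only.
-/

set_option autoImplicit false

namespace Pool.Agent.Results.MP_36f0a5_co.BoundedIndex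

/-- The number of the triples which contain `a` and `b`, if `x T` is the multiplicity of `T`. -/
def cov {U : Type} [Fintype U] [DecidableEq U] (x : Finset U → ℕ) (a b : U) : ℕ :=
  ∑ T ∈ Finset.univ.filter (fun T : Finset U => a ∈ T ∧ b ∈ T), x T

/-- The multiset in which `T` has the multiplicity `x T` is a partial triple system of index `l` on `U`. -/
def PartialSystem {U : Type} [Fintype U] [DecidableEq U] (l : ℕ) (x : Finset U → ℕ) : Prop :=
  (∀ T, T.card ≠ 3 → x T = 0) ∧ ∀ a b : U, a ≠ b → cov x a b ≤ l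

/-- The multiset in which `T` has the multiplicity `y T` is a triple system of index `l` on `V`. -/
def TripleSystem {V : Type} [Fintype V] [DecidableEq V] (l : ℕ) (y : Finset V → ℕ) : Prop :=
  (∀ T, T.card ≠ 3 → y T = 0) ∧ ∀ a b : V, a ≠ b → cov y a b = l

/-- The order `v` is feasible for the index `l`. -/
def Feasible (l v : ℕ) : Prop := 2 ∣ l * (v - 1) ∧ 6 ∣ l * v * (v - 1)

/-- `x` has an embedding of order `v`: for every injection `f` of `U` in `Fin v` the image of `x` under `f` is contained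
in a triple system of index `l` on `Fin v`. -/
def Embeds {U : Type} (l v : ℕ) (x : Finset U → ℕ) : Prop :=
  ∀ f : U ↪ Fin v, ∃ y : Finset (Fin v) → ℕ, TripleSystem l y ∧ ∀ T, x T ≤ y (T.map f)

section

variable {U : Type} [Fintype U] [DecidableEq U]

lemma cov_add (x y : Finset U → ℕ) (a b : U) : cov (fun T => x T + y T) a b = cov x a b + cov y a b := by
  simp [cov, Finset.sum_add_distrib]

lemma count_le (a b : U) (hab : a ≠ b) :
    (Finset.univ.filter (fun T : Finset U => T.card = 3 ∧ a ∈ T ∧ b ∈ T)).card ≤ Fintype.card U - 2 := by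
  have h1 : (Finset.univ.filter (fun T : Finset U => T.card = 3 ∧ a ∈ T ∧ b ∈ T)) ⊆
      (Finset.univ \ {a, b} : Finset U).image (fun c => insert a (insert b {c})) := by
    intro T hT
    obtain ⟨hc, ha, hb⟩ := (Finset.mem_filter.1 hT).2
    have hb' : b ∈ T.erase a := Finset.mem_erase.2 ⟨hab.symm, hb⟩
    have h2 : ((T.erase a).erase b).card = 1 := by
      rw [Finset.card_erase_of_mem hb', Finset.card_erase_of_mem ha, hc]
    obtain ⟨c, hc'⟩ := Finset.card_eq_one.1 h2
    have hcm : c ∈ (T.erase a).erase b := by rw [hc']; exact Finset.mem_singleton_self c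
    rw [Finset.mem_erase, Finset.mem_erase] at hcm
    refine Finset.mem_image.2 ⟨c, ?_, ?_⟩
    · simp [hcm.1, hcm.2.1]
    · show insert a (insert b {c}) = T
      rw [← hc', Finset.insert_erase hb', Finset.insert_erase ha]
  refine (Finset.card_le_card h1).trans (Finset.card_image_le.trans ?_)
  rw [Finset.card_sdiff_of_subset (Finset.subset_univ _), Finset.card_pair hab, Finset.card_univ]

lemma sum_lt (δ : Finset U → ℤ) (l : ℕ) (hl : 0 < l) (h0 : ∀ T, T.card ≠ 3 → δ T = 0)
    (hδ : ∀ T, T.card = 3 → δ T * ((Fintype.card U - 2 : ℕ) : ℤ) < l) (a b : U) (hab : a ≠ b) :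
    ∑ T ∈ Finset.univ.filter (fun T : Finset U => a ∈ T ∧ b ∈ T), δ T < l := by
  set m := Fintype.card U - 2 with hm
  set S := Finset.univ.filter (fun T : Finset U => T.card = 3 ∧ a ∈ T ∧ b ∈ T) with hS
  have h1 : ∑ T ∈ Finset.univ.filter (fun T : Finset U => a ∈ T ∧ b ∈ T), δ T = ∑ T ∈ S, δ T := by
    symm
    refine Finset.sum_subset (fun T hT => ?_) (fun T hT hT' => h0 T fun h3 => hT' ?_)
    · rw [hS, Finset.mem_filter] at hT
      exact Finset.mem_filter.2 ⟨hT.1, hT.2.2⟩
    · rw [Finset.mem_filter] at hT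
      rw [hS, Finset.mem_filter]
      exact ⟨hT.1, h3, hT.2⟩
  rw [h1]
  have hcard : S.card ≤ m := count_le a b hab
  rcases S.eq_empty_or_nonempty with he | hne
  · rw [he, Finset.sum_empty]
    exact_mod_cast hl
  · have hmpos : 0 < m := lt_of_lt_of_le (Finset.card_pos.2 hne) hcard
    have h2 : ∑ T ∈ S, δ T * (m : ℤ) < ∑ T ∈ S, (l : ℤ) :=
      Finset.sum_lt_sum_of_nonempty hne fun T hT => hδ T (Finset.mem_filter.1 hT).2.1
    rw [← Finset.sum_mul, Finset.sum_const, nsmul_eq_mul] at h2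
    have h3 : (S.card : ℤ) * l ≤ m * l := by
      have : (S.card : ℤ) ≤ m := by exact_mod_cast hcard
      exact mul_le_mul_of_nonneg_right this (by positivity)
    have h4 : (∑ T ∈ S, δ T) * (m : ℤ) < l * m := by linarith [mul_comm (m : ℤ) (l : ℤ)]
    exact lt_of_mul_lt_mul_right h4 (by positivity)

/-- the splitting -/
lemma split (l : ℕ) (x : Finset U → ℕ) (hx : PartialSystem l x)
    (hl : 6 * (Fintype.card U - 2) ^ (Fintype.card U).choose 3 < l) :
    ∃ (l₁ l₂ : ℕ) (x₁ x₂ : Finset U → ℕ), 0 < l₁ ∧ l₁ ≤ 6 * (Fintype.card U - 2) ^ (Fintype.card U).choose 3 ∧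
      6 ∣ l₁ ∧ l₁ + l₂ = l ∧ (∀ T, x₁ T + x₂ T = x T) ∧ PartialSystem l₁ x₁ ∧ PartialSystem l₂ x₂ := by
  set m := Fintype.card U - 2 with hm
  set K := m ^ (Fintype.card U).choose 3 with hK
  have hlpos : 0 < l := by omega
  have hmpos : ∀ T : Finset U, T.card = 3 → 0 < m := by
    intro T hT
    have := Finset.card_le_univ T
    omega
  let g : Fin (K + 1) → ({T : Finset U // T.card = 3} → Fin m) := fun j T =>
    ⟨((6 * j.val * x T.1) % l) * m / l, by
      rw [Nat.div_lt_iff_lt_mul hlpos, mul_comm m l]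
      exact Nat.mul_lt_mul_of_pos_right (Nat.mod_lt _ hlpos) (hmpos T.1 T.2)⟩
  have hcard : Fintype.card ({T : Finset U // T.card = 3} → Fin m) < Fintype.card (Fin (K + 1)) := by
    rw [Fintype.card_fun, Fintype.card_fin, Fintype.card_fin, Fintype.card_finset_len]
    omega
  obtain ⟨i, j, hij, hg⟩ : ∃ i j : Fin (K + 1), i.val < j.val ∧ g i = g j := by
    obtain ⟨i, j, hne, hg⟩ := Fintype.exists_ne_map_eq_of_card_lt g hcard
    rcases lt_or_gt_of_ne (fun h => hne (Fin.ext h)) with h | h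
    · exact ⟨i, j, h, hg⟩
    · exact ⟨j, i, h, hg.symm⟩
  have hjK : j.val ≤ K := by omega
  set D := 6 * (j.val - i.val) with hD
  have hDK : D ≤ 6 * K := by omega
  have hDpos : 0 < D := by omega
  let x₁ : Finset U → ℕ := fun T => if T.card = 3 then (6 * j.val * x T) / l - (6 * i.val * x T) / l else 0
  have hx1 : ∀ T : Finset U, T.card ≠ 3 → x₁ T = 0 := fun T hT => if_neg hT
  let δ : Finset U → ℤ := fun T => (l : ℤ) * x₁ T - D * x T
  have hδ0 : ∀ T : Finset U, T.card ≠ 3 → δ T = 0 := by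
    intro T hT
    show (l : ℤ) * x₁ T - D * x T = 0
    rw [hx1 T hT, hx.1 T hT]
    simp
  have hδ : ∀ T : Finset U, T.card = 3 → δ T * (m : ℤ) < l ∧ (- δ T) * (m : ℤ) < l ∧ δ T < l := by
    intro T hT
    have hgT := congrArg Fin.val (congrFun hg ⟨T, hT⟩)
    change ((6 * i.val * x T) % l) * m / l = ((6 * j.val * x T) % l) * m / l at hgT
    set ri := (6 * i.val * x T) % l with hri
    set rj := (6 * j.val * x T) % l with hrj
    have hi := Nat.div_add_mod (6 * i.val * x T) l
    have hj := Nat.div_add_mod (6 * j.val * x T) l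
    rw [← hri] at hi
    rw [← hrj] at hj
    have hle : (6 * i.val * x T) / l ≤ (6 * j.val * x T) / l := by
      apply Nat.div_le_div_right
      apply Nat.mul_le_mul_right
      omega
    have hx1T : ((x₁ T : ℕ) : ℤ) = ((6 * j.val * x T) / l : ℕ) - ((6 * i.val * x T) / l : ℕ) := by
      show (((if T.card = 3 then (6 * j.val * x T) / l - (6 * i.val * x T) / l else 0 : ℕ)) : ℤ) = _
      rw [if_pos hT]
      push_cast [hle]
      rfl
    have hDz : (D : ℤ) = 6 * j.val - 6 * i.val := by omega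
    have hiz : (l : ℤ) * ((6 * i.val * x T) / l : ℕ) + ri = 6 * i.val * x T := by exact_mod_cast hi
    have hjz : (l : ℤ) * ((6 * j.val * x T) / l : ℕ) + rj = 6 * j.val * x T := by exact_mod_cast hj
    have hδT : δ T = (ri : ℤ) - rj := by
      show (l : ℤ) * x₁ T - D * x T = _
      rw [hx1T, hDz]
      linarith
    have hi1 := Nat.div_mul_le_self (ri * m) l
    have hi2 := Nat.lt_div_mul_add hlpos (a := ri * m)
    have hj1 := Nat.div_mul_le_self (rj * m) l
    have hj2 := Nat.lt_div_mul_add hlpos (a := rj * m)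
    rw [hgT] at hi1 hi2
    have hri' : ri < l := Nat.mod_lt _ hlpos
    have e1 : (ri : ℤ) * m < rj * m + l := by
      have : ri * m < rj * m + l := by omega
      exact_mod_cast this
    have e2 : (rj : ℤ) * m < ri * m + l := by
      have : rj * m < ri * m + l := by omega
      exact_mod_cast this
    rw [hδT]
    refine ⟨by linarith, by linarith, by omega⟩
  have hle : ∀ T, x₁ T ≤ x T := by
    intro T
    by_cases hT : T.card = 3
    · by_contra hcon
      have h1 : (x T : ℤ) + 1 ≤ x₁ T := by exact_mod_cast (by omega : x T + 1 ≤ x₁ T)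
      have h2 := (hδ T hT).2.2
      have h2' : (l : ℤ) * x₁ T - D * x T < l := h2
      have h3 : (D : ℤ) ≤ l := by exact_mod_cast (by omega : D ≤ l)
      have h4 : (D : ℤ) * x T ≤ l * x T := mul_le_mul_of_nonneg_right h3 (by positivity)
      have h5 : (l : ℤ) * (x T + 1) ≤ l * x₁ T := mul_le_mul_of_nonneg_left h1 (by positivity)
      linarith
    · rw [hx1 T hT]
      exact Nat.zero_le _
  have hsum : ∀ a b : U, (l : ℤ) * (cov x₁ a b : ℤ) =
      D * (cov x a b : ℤ) + ∑ T ∈ Finset.univ.filter (fun T : Finset U => a ∈ T ∧ b ∈ T), δ T := by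
    intro a b
    unfold cov
    push_cast
    rw [Finset.mul_sum, Finset.mul_sum, ← Finset.sum_add_distrib]
    refine Finset.sum_congr rfl fun T _ => ?_
    show (l : ℤ) * x₁ T = D * x T + ((l : ℤ) * x₁ T - D * x T)
    ring
  have hcovadd : ∀ a b : U, cov x₁ a b + cov (fun T => x T - x₁ T) a b = cov x a b := by
    intro a b
    rw [← cov_add]
    unfold cov
    refine Finset.sum_congr rfl fun T _ => ?_
    have := hle T
    show x₁ T + (x T - x₁ T) = x T
    omega
  refine ⟨D, l - D, x₁, fun T => x T - x₁ T, hDpos, hDK, ⟨_, hD⟩, by omega, fun T => ?_, ⟨hx1, fun a b hab => ?_⟩,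
    ⟨fun T hT => ?_, fun a b hab => ?_⟩⟩
  · have := hle T
    show x₁ T + (x T - x₁ T) = x T
    omega
  · have h1 := sum_lt δ l hlpos hδ0 (fun T hT => (hδ T hT).1) a b hab
    have h2 := hsum a b
    have h3 : (cov x a b : ℤ) ≤ l := by exact_mod_cast hx.2 a b hab
    have h4 : (D : ℤ) * cov x a b ≤ D * l := mul_le_mul_of_nonneg_left h3 (by positivity)
    have h5 : (l : ℤ) * (cov x₁ a b : ℤ) < l * (D + 1) := by
      rw [h2]
      linarith [mul_comm (D : ℤ) (l : ℤ)]
    have h6 : (cov x₁ a b : ℤ) < D + 1 := lt_of_mul_lt_mul_left h5 (by positivity)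
    omega
  · show x T - x₁ T = 0
    rw [hx.1 T hT]
    simp
  · have h1 := sum_lt (fun T => - δ T) l hlpos (fun T hT => by rw [hδ0 T hT]; simp) (fun T hT => (hδ T hT).2.1) a b hab
    rw [Finset.sum_neg_distrib] at h1
    have h2 := hsum a b
    have h3 : (cov x a b : ℤ) ≤ l := by exact_mod_cast hx.2 a b hab
    have h7 : (D : ℤ) ≤ l := by exact_mod_cast (by omega : D ≤ l)
    have h8 : (cov x₁ a b : ℤ) + cov (fun T => x T - x₁ T) a b = cov x a b := by exact_mod_cast hcovadd a b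
    have h4 : ((l : ℤ) - D) * cov x a b ≤ (l - D) * l := mul_le_mul_of_nonneg_left h3 (by linarith)
    have h5 : (l : ℤ) * (cov (fun T => x T - x₁ T) a b : ℤ) < l * (l - D + 1) := by
      have h9 : (cov (fun T => x T - x₁ T) a b : ℤ) = cov x a b - cov x₁ a b := by linarith
      rw [h9, mul_sub, h2]
      nlinarith
    have h6 : (cov (fun T => x T - x₁ T) a b : ℤ) < l - D + 1 := lt_of_mul_lt_mul_left h5 (by positivity)
    omega

omit [Fintype U] [DecidableEq U] in
lemma embeds_add {l₁ l₂ v : ℕ} {x₁ x₂ x : Finset U → ℕ} (h₁ : Embeds l₁ v x₁) (h₂ : Embeds l₂ v x₂)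
    (hx : ∀ T, x₁ T + x₂ T = x T) : Embeds (l₁ + l₂) v x := by
  intro f
  obtain ⟨y₁, hy₁, hle₁⟩ := h₁ f
  obtain ⟨y₂, hy₂, hle₂⟩ := h₂ f
  refine ⟨fun T => y₁ T + y₂ T, ⟨fun T hT => ?_, fun a b hab => ?_⟩, fun T => ?_⟩
  · show y₁ T + y₂ T = 0
    rw [hy₁.1 T hT, hy₂.1 T hT]
  · rw [cov_add, hy₁.2 a b hab, hy₂.2 a b hab]
  · show x T ≤ y₁ (T.map f) + y₂ (T.map f)
    rw [← hx T]
    exact add_le_add (hle₁ T) (hle₂ T)

lemma feasible_six {l₁ : ℕ} (h : 6 ∣ l₁) (v : ℕ) : Feasible l₁ v := by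
  refine ⟨?_, ?_⟩
  · exact Dvd.dvd.mul_right (dvd_trans (by norm_num) h) _
  · exact Dvd.dvd.mul_right (Dvd.dvd.mul_right h _) _

lemma feasible_sub {l₁ l₂ v : ℕ} (h : Feasible (l₁ + l₂) v) (h₁ : Feasible l₁ v) : Feasible l₂ v := by
  refine ⟨?_, ?_⟩
  · have := h.1
    rw [add_mul] at this
    exact (Nat.dvd_add_right h₁.1).1 this
  · have := h.2
    rw [add_mul, add_mul] at this
    exact (Nat.dvd_add_right h₁.2).1 this

end

/-- With `B(u) = 6 (u - 2) ^ C(u, 3)`: (1) every partial triple system of order `u` and index `l > B(u)` is the sum of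
two partial triple systems with positive indices whose sum is `l`, the first one a multiple of `6` and at most `B(u)`.
(2) If all partial triple systems of order `u` and index `0 < l ≤ B(u)`, `l ≡ 0` or `c` modulo `6`, `v` feasible for `l`,
have an embedding of order `v`, so have those with any index `l ≡ 0` or `c` modulo `6`. (3) The statement of the problem
follows from its cases with even index, with `v ≥ 4 u + 1` and odd index, and with `v ≤ 4 u` and odd index at most
`B(u)`. -/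
theorem result :
    (∀ (u l : ℕ) (x : Finset (Fin u) → ℕ), PartialSystem l x → 6 * (u - 2) ^ u.choose 3 < l →
      ∃ (l₁ l₂ : ℕ) (x₁ x₂ : Finset (Fin u) → ℕ), 0 < l₁ ∧ l₁ ≤ 6 * (u - 2) ^ u.choose 3 ∧ 6 ∣ l₁ ∧ 0 < l₂ ∧
        l₁ + l₂ = l ∧ (∀ T, x₁ T + x₂ T = x T) ∧ PartialSystem l₁ x₁ ∧ PartialSystem l₂ x₂) ∧
    (∀ u v c : ℕ,
      (∀ l : ℕ, 0 < l → l ≤ 6 * (u - 2) ^ u.choose 3 → (6 ∣ l ∨ l % 6 = c) → Feasible l v →
        ∀ x : Finset (Fin u) → ℕ, PartialSystem l x → Embeds l v x) →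
      ∀ l : ℕ, 0 < l → (6 ∣ l ∨ l % 6 = c) → Feasible l v →
        ∀ x : Finset (Fin u) → ℕ, PartialSystem l x → Embeds l v x) ∧
    ((∀ u v l : ℕ, u < 28 → 2 * u + 1 ≤ v → 0 < l → Even l → Feasible l v →
        ∀ x : Finset (Fin u) → ℕ, PartialSystem l x → Embeds l v x) →
      (∀ u v l : ℕ, u < 28 → 4 * u + 1 ≤ v → Odd l → Feasible l v →
        ∀ x : Finset (Fin u) → ℕ, PartialSystem l x → Embeds l v x) →
      (∀ u v l : ℕ, u < 28 → 2 * u + 1 ≤ v → v ≤ 4 * u → Odd l → l ≤ 6 * (u - 2) ^ u.choose 3 → Feasible l v →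
        ∀ x : Finset (Fin u) → ℕ, PartialSystem l x → Embeds l v x) →
      ∀ u v l : ℕ, u < 28 → 2 * u + 1 ≤ v → 0 < l → Feasible l v →
        ∀ x : Finset (Fin u) → ℕ, PartialSystem l x → Embeds l v x) := by
  have h1 : ∀ (u l : ℕ) (x : Finset (Fin u) → ℕ), PartialSystem l x → 6 * (u - 2) ^ u.choose 3 < l →
      ∃ (l₁ l₂ : ℕ) (x₁ x₂ : Finset (Fin u) → ℕ), 0 < l₁ ∧ l₁ ≤ 6 * (u - 2) ^ u.choose 3 ∧ 6 ∣ l₁ ∧ 0 < l₂ ∧
        l₁ + l₂ = l ∧ (∀ T, x₁ T + x₂ T = x T) ∧ PartialSystem l₁ x₁ ∧ PartialSystem l₂ x₂ := by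
    intro u l x hx hl
    obtain ⟨l₁, l₂, x₁, x₂, hpos, hle, h6, hs, h⟩ := split l x hx (by rw [Fintype.card_fin]; exact hl)
    rw [Fintype.card_fin] at hle
    exact ⟨l₁, l₂, x₁, x₂, hpos, hle, h6, by omega, hs, h⟩
  have h2 : ∀ u v c : ℕ,
      (∀ l : ℕ, 0 < l → l ≤ 6 * (u - 2) ^ u.choose 3 → (6 ∣ l ∨ l % 6 = c) → Feasible l v →
        ∀ x : Finset (Fin u) → ℕ, PartialSystem l x → Embeds l v x) →
      ∀ l : ℕ, 0 < l → (6 ∣ l ∨ l % 6 = c) → Feasible l v →
        ∀ x : Finset (Fin u) → ℕ, PartialSystem l x → Embeds l v x := by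
    intro u v c h l
    induction l using Nat.strong_induction_on with
    | _ l ih =>
      intro h0 hc hf x hx
      rcases Nat.lt_or_ge (6 * (u - 2) ^ u.choose 3) l with hlt | hle
      · obtain ⟨l₁, l₂, x₁, x₂, hpos, -, h6, hpos2, hl, hxx, hp1, hp2⟩ := h1 u l x hx hlt
        have hf1 := feasible_six h6 v
        subst hl
        have hf2 := feasible_sub hf hf1
        refine embeds_add (ih l₁ (by omega) hpos (Or.inl h6) hf1 x₁ hp1) (ih l₂ (by omega) hpos2 ?_ hf2 x₂ hp2) hxx
        omega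
      · exact h l h0 hle hc hf x hx
  refine ⟨h1, h2, fun hE hL hF u v l hu hv h0 hf x hx => ?_⟩
  rcases Nat.even_or_odd l with he | ho
  · exact hE u v l hu hv h0 he hf x hx
  · rcases Nat.lt_or_ge (4 * u) v with hlt | hle
    · exact hL u v l hu hlt ho hf x hx
    · refine h2 u v (l % 6) (fun l' h0' hl' hc hf' x' hx' => ?_) l h0 (Or.inr rfl) hf x hx
      rcases Nat.even_or_odd l' with he' | ho'
      · exact hE u v l' hu hv h0' he' hf' x' hx'
      · exact hF u v l' hu hv hle ho' hl' hf' x' hx'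

end Pool.Agent.Results.MP_36f0a5_co.BoundedIndex
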